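import Mathlib

set_option autoImplicit false

/-! Project R14 (helper766), part BOR: Borel-Caratheodory for a function without zeros. -/

namespace Pool.Agent.Y970.R14

open Complex Metric Set

/-- Borel-Caratheodory with centre `c`. -/
theorem bc {G : ℂ → ℂ} {c : ℂ} {ρ M : ℝ} (hM : 0 < M) (hρ : 0 < ρ)
    (hG : DifferentiableOn ℂ G (ball c ρ)) (hre : ∀ w ∈ ball c ρ, (G w - G c).re ≤ M)
    {w : ℂ} (hw : w ∈ ball c ρ) : ‖G w - G c‖ ≤ 2 * M * ‖w - c‖ / (ρ - ‖w - c‖) := by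
  have hmap : MapsTo (fun z : ℂ => c + z) (ball 0 ρ) (ball c ρ) := by
    intro z hz
    rw [mem_ball_zero_iff] at hz
    rw [mem_ball_iff_norm, add_sub_cancel_left]
    exact hz
  have hd : DifferentiableOn ℂ (fun z => G (c + z) - G c) (ball 0 ρ) := by
    refine DifferentiableOn.sub_const ?_ _
    refine hG.comp (f := fun z : ℂ => c + z) ?_ hmap
    exact (differentiable_id.const_add c).differentiableOn
  have hz : w - c ∈ ball (0 : ℂ) ρ := by
    rw [mem_ball_zero_iff]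
    rwa [mem_ball_iff_norm] at hw
  have h := borelCaratheodory_zero (f := fun z => G (c + z) - G c) (z := w - c) hM hd
    (fun z hz => hre _ (hmap hz)) hρ hz (by simp)
  simpa using h

/-- The main estimate. -/
theorem core {G : ℂ → ℂ} (hG : DifferentiableOn ℂ G (ball 0 1)) (h0 : G (1 / 2) = 0)
    (ha : ∀ w : ℂ, ‖w - 1 / 2‖ ≤ (1 - 1 / 65536) / 2 → (G w).re ≤ (1 / 65536) ^ 2 / 256)
    (hb : ∀ w : ℂ, ‖w‖ ≤ 1 / 2 → (G w).re ≤ 3) :
    ‖G (-((1 / 65536 : ℝ) : ℂ)) - G ((1 / 65536 : ℝ) : ℂ)‖ < (1 / 65536 : ℝ) / 2 := by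
  generalize hτ : (1 / 65536 : ℝ) = τ at ha ⊢
  have hτ : τ = 1 / 65536 := hτ.symm
  have hτ0 : 0 < τ := by rw [hτ]; norm_num
  have hτn : ‖(τ : ℂ)‖ = τ := by rw [Complex.norm_real, Real.norm_of_nonneg hτ0.le]
  have hhalf : ‖(1 / 2 : ℂ)‖ = 1 / 2 := by norm_num
  -- first application
  have hs1 : ball (1 / 2 : ℂ) ((1 - τ) / 2) ⊆ ball 0 1 := by
    intro w hw
    rw [mem_ball_iff_norm] at hw
    rw [mem_ball_zero_iff]
    have h1 : ‖w‖ ≤ ‖w - 1 / 2‖ + ‖(1 / 2 : ℂ)‖ := by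
      have := norm_add_le (w - 1 / 2) (1 / 2)
      rwa [sub_add_cancel] at this
    rw [hhalf] at h1
    linarith
  have hη : 0 < τ ^ 2 / 256 := by positivity
  have hρ : 0 < (1 - τ) / 2 := by rw [hτ]; norm_num
  have b1 : ∀ w : ℂ, ‖w - τ‖ ≤ τ / 4 → ‖G w‖ ≤ τ / 64 := by
    intro w hw
    have e1 : ‖(τ : ℂ) - 1 / 2‖ = 1 / 2 - τ := by
      have : (τ : ℂ) - 1 / 2 = ((τ - 1 / 2 : ℝ) : ℂ) := by push_cast; ring
      rw [this, Complex.norm_real, Real.norm_eq_abs, abs_sub_comm, abs_of_nonneg]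
      rw [hτ]; norm_num
    have e2 : ‖w - 1 / 2‖ ≤ 1 / 2 - 3 * τ / 4 := by
      have := norm_add_le (w - τ) (τ - 1 / 2)
      rw [sub_add_sub_cancel, e1] at this
      linarith
    have hwb : w ∈ ball (1 / 2 : ℂ) ((1 - τ) / 2) := by
      rw [mem_ball_iff_norm]
      linarith
    have h := bc hη hρ (hG.mono hs1) (fun z hz => by
      rw [h0, sub_zero]
      rw [mem_ball_iff_norm] at hz
      exact ha z hz.le) hwb
    rw [h0, sub_zero] at h
    refine h.trans ?_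
    have e3 : τ / 4 ≤ (1 - τ) / 2 - ‖w - 1 / 2‖ := by linarith
    rw [div_le_iff₀ (by linarith)]
    have e4 : 2 * (τ ^ 2 / 256) * ‖w - 1 / 2‖ ≤ 2 * (τ ^ 2 / 256) * (1 / 2) :=
      mul_le_mul_of_nonneg_left (by linarith) (by positivity)
    have e5 : τ / 64 * (τ / 4) ≤ τ / 64 * ((1 - τ) / 2 - ‖w - 1 / 2‖) :=
      mul_le_mul_of_nonneg_left e3 (by positivity)
    nlinarith
  have b1τ : ‖G τ‖ ≤ τ / 64 := b1 τ (by simp; positivity)
  -- the derivative at `τ`
  have hs2 : ball (τ : ℂ) (τ / 4) ⊆ ball 0 1 := by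
    intro w hw
    rw [mem_ball_iff_norm] at hw
    rw [mem_ball_zero_iff]
    have h1 : ‖w‖ ≤ ‖w - τ‖ + ‖(τ : ℂ)‖ := by
      have := norm_add_le (w - τ) τ
      rwa [sub_add_cancel] at this
    rw [hτn] at h1
    have : τ < 1 / 2 := by rw [hτ]; norm_num
    linarith
  have d1 : ‖deriv G τ‖ ≤ (τ / 31) / (τ / 4) := by
    refine norm_deriv_le_div_of_mapsTo_ball (hG.mono hs2) ?_ (by positivity)
    intro w hw
    rw [mem_ball_iff_norm] at hw
    rw [mem_closedBall_iff_norm]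
    have h1 := norm_sub_le (G w) (G τ)
    have h2 := b1 w hw.le
    have h3 : τ / 64 + τ / 64 < τ / 31 := by
      have : τ / 31 - (τ / 64 + τ / 64) = τ / 992 := by ring
      have : 0 < τ / 992 := by positivity
      linarith
    linarith
  have d1' : ‖deriv G τ‖ ≤ 4 / 31 := by
    refine d1.trans (le_of_eq ?_)
    field_simp
  -- second application
  have hs3 : ball (τ : ℂ) (1 / 4) ⊆ ball 0 1 := by
    intro w hw
    rw [mem_ball_iff_norm] at hw
    rw [mem_ball_zero_iff]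
    have h1 : ‖w‖ ≤ ‖w - τ‖ + ‖(τ : ℂ)‖ := by
      have := norm_add_le (w - τ) τ
      rwa [sub_add_cancel] at this
    rw [hτn] at h1
    have : τ < 1 / 4 := by rw [hτ]; norm_num
    linarith
  have b2 : ∀ w ∈ ball (τ : ℂ) (1 / 8), ‖G w - G τ‖ < 9 := by
    intro w hw
    rw [mem_ball_iff_norm] at hw
    have hwb : w ∈ ball (τ : ℂ) (1 / 4) := by
      rw [mem_ball_iff_norm]
      linarith
    have h := bc (M := 4) (by norm_num) (by norm_num) (hG.mono hs3) (fun z hz => by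
      rw [mem_ball_iff_norm] at hz
      have h1 : ‖z‖ ≤ ‖z - τ‖ + ‖(τ : ℂ)‖ := by
        have := norm_add_le (z - τ) τ
        rwa [sub_add_cancel] at this
      rw [hτn] at h1
      have h2 : τ < 1 / 4 := by rw [hτ]; norm_num
      have h3 := hb z (by linarith)
      have h4 := Complex.abs_re_le_norm (G τ)
      have h5 := neg_abs_le (G τ).re
      have h6 : τ / 64 < 1 := by rw [hτ]; norm_num
      rw [Complex.sub_re]
      linarith) hwb
    refine h.trans_lt ?_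
    rw [div_lt_iff₀ (by linarith)]
    nlinarith
  have hs4 : ball (τ : ℂ) (1 / 8) ⊆ ball 0 1 := (ball_subset_ball (by norm_num)).trans hs3
  have hmaps : MapsTo G (ball (τ : ℂ) (1 / 8)) (closedBall (G τ) 9) := by
    intro w hw
    rw [mem_closedBall_iff_norm]
    exact (b2 w hw).le
  have hφd : DifferentiableOn ℂ (dslope G τ) (ball (τ : ℂ) (1 / 8)) :=
    (differentiableOn_dslope (ball_mem_nhds _ (by norm_num))).2 (hG.mono hs4)
  have hφb : ∀ w ∈ ball (τ : ℂ) (1 / 8), ‖dslope G τ w‖ ≤ 72 := by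
    intro w hw
    refine (norm_dslope_le_div_of_mapsTo_ball (hG.mono hs4) hmaps hw).trans ?_
    norm_num
  have hmaps2 : MapsTo (dslope G τ) (ball (τ : ℂ) (1 / 8))
      (closedBall (dslope G τ τ) 145) := by
    intro w hw
    rw [mem_closedBall_iff_norm]
    have h1 := norm_sub_le (dslope G τ w) (dslope G τ τ)
    have h2 := hφb w hw
    have h3 := hφb τ (mem_ball_self (by norm_num))
    linarith
  have hmem : -(τ : ℂ) ∈ ball (τ : ℂ) (1 / 8) := by
    rw [mem_ball_iff_norm]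
    have : -(τ : ℂ) - τ = ((-(2 * τ) : ℝ) : ℂ) := by push_cast; ring
    rw [this, Complex.norm_real, norm_neg, Real.norm_of_nonneg (by positivity), hτ]
    norm_num
  have hdist : ‖-(τ : ℂ) - τ‖ = 2 * τ := by
    have : -(τ : ℂ) - τ = ((-(2 * τ) : ℝ) : ℂ) := by push_cast; ring
    rw [this, Complex.norm_real, norm_neg, Real.norm_of_nonneg (by positivity)]
  have d2 : ‖dslope G τ (-(τ : ℂ)) - dslope G τ τ‖ ≤ 145 / (1 / 8) * (2 * τ) := by
    have := dist_le_div_mul_dist_of_mapsTo_ball hφd hmaps2 hmem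
    rw [dist_eq_norm, dist_eq_norm, hdist] at this
    exact this
  have d3 : ‖dslope G τ (-(τ : ℂ))‖ < 1 / 4 := by
    have h1 : ‖dslope G τ (-(τ : ℂ))‖ ≤
        ‖dslope G τ (-(τ : ℂ)) - dslope G τ τ‖ + ‖dslope G τ τ‖ := by
      have := norm_add_le (dslope G τ (-(τ : ℂ)) - dslope G τ τ) (dslope G τ τ)
      rwa [sub_add_cancel] at this
    rw [dslope_same] at h1 d2
    have h2 : (145 : ℝ) / (1 / 8) * (2 * τ) ≤ 1 / 16 := by rw [hτ]; norm_num
    have h3 : (4 : ℝ) / 31 < 3 / 16 := by norm_num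
    linarith
  have hfin : G (-(τ : ℂ)) - G τ = (-(τ : ℂ) - τ) • dslope G τ (-(τ : ℂ)) :=
    (sub_smul_dslope G τ (-(τ : ℂ))).symm
  rw [hfin, norm_smul, hdist]
  nlinarith

end Pool.Agent.Y970.R14
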