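import Mathlib
import Pool.Agent.Y970.R14.Core
import Pool.Agent.Y766.R14.Stm

set_option autoImplicit false

/-! Project R14 (helper766), part BOR: Borel-Caratheodory for a function without zeros. -/

namespace Pool.Agent.Y970.R14

open Complex Metric Set

theorem exists_log {f : ℂ → ℂ} (hf : Differentiable ℂ f) (hne : ∀ w : ℂ, ‖w‖ ≤ 1 → f w ≠ 0) :
    ∃ g : ℂ → ℂ, DifferentiableOn ℂ g (ball 0 1) ∧ g (1 / 2) = 0 ∧
      ∀ z ∈ ball (0 : ℂ) 1, f z = f (1 / 2) * exp (g z) := by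
  have hne' : ∀ z ∈ ball (0 : ℂ) 1, f z ≠ 0 := fun z hz =>
    hne z (mem_ball_zero_iff.1 hz).le
  have hd : DifferentiableOn ℂ (fun z => deriv f z / f z) (ball 0 1) :=
    (hf.differentiableOn.deriv isOpen_ball).div hf.differentiableOn hne'
  obtain ⟨g, hg0, hg⟩ := (hd.isExactOn_ball).with_val_at (1 / 2) 0
  refine ⟨g, fun z hz => (hg z hz).differentiableAt.differentiableWithinAt, hg0, ?_⟩
  have hder : ∀ z ∈ ball (0 : ℂ) 1, HasDerivAt (fun z => f z * exp (-(g z))) 0 z := by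
    intro z hz
    have h1 : HasDerivAt f (deriv f z) z := (hf z).hasDerivAt
    have h2 := (hg z hz).neg.cexp
    have h3 := h1.mul h2
    have h4 : deriv f z * exp (-(g z)) + f z * (exp (-(g z)) * -(deriv f z / f z)) = 0 := by
      have := hne' z hz
      field_simp
      ring
    rw [← h4]
    exact h3
  have hhalf : (1 / 2 : ℂ) ∈ ball (0 : ℂ) 1 := by
    rw [mem_ball_zero_iff]
    norm_num
  intro z hz
  have h5 := isOpen_ball.is_const_of_deriv_eq_zero (convex_ball (0 : ℂ) 1).isPreconnected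
    (fun z hz => (hder z hz).differentiableAt.differentiableWithinAt)
    (fun z hz => (hder z hz).deriv) hz hhalf
  simp only [hg0, neg_zero, exp_zero, mul_one] at h5
  rw [← h5, mul_assoc, ← exp_add, neg_add_cancel, exp_zero, mul_one]

/-- **BOR**, in a form which uses only Mathlib. -/
theorem bor_main : ∃ τ η : ℝ, 0 < τ ∧ τ ≤ 1 / 100 ∧ 0 < η ∧ η ≤ 1 / 100 ∧
    ∀ R : ℝ, 1 ≤ R → ∀ f : ℂ → ℂ, Differentiable ℂ f → (∀ w : ℂ, ‖w‖ ≤ 1 → f w ≠ 0) →
    (∀ w : ℂ, ‖w - 1 / 2‖ ≤ (1 - τ) / 2 → ‖f w‖ ≤ Real.exp (η * R) * ‖f (1 / 2)‖) →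
    (∀ w : ℂ, ‖w‖ ≤ 1 / 2 → ‖f w‖ ≤ Real.exp (3 * R) * ‖f (1 / 2)‖) →
    ‖f (-(τ : ℂ))‖ < Real.exp (τ * R / 2) * ‖f (τ : ℂ)‖ := by
  refine ⟨1 / 65536, (1 / 65536) ^ 2 / 256, by norm_num, by norm_num, by norm_num, by norm_num,
    ?_⟩
  intro R hR f hf hne ha hb
  have hR0 : 0 < R := by linarith
  obtain ⟨g, hgd, hg0, hfg⟩ := exists_log hf hne
  have hhalf : (1 / 2 : ℂ) ∈ ball (0 : ℂ) 1 := by
    rw [mem_ball_zero_iff]
    norm_num
  have hf0 : 0 < ‖f (1 / 2)‖ := norm_pos_iff.2 (hne _ (mem_ball_zero_iff.1 hhalf).le)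
  have hnorm : ∀ z ∈ ball (0 : ℂ) 1, ‖f z‖ = ‖f (1 / 2)‖ * Real.exp (g z).re := by
    intro z hz
    rw [hfg z hz, norm_mul, Complex.norm_exp]
  -- from a bound for `f` to a bound for the real part
  have hre : ∀ z ∈ ball (0 : ℂ) 1, ∀ c : ℝ, ‖f z‖ ≤ Real.exp (c * R) * ‖f (1 / 2)‖ →
      (g z / (R : ℂ)).re ≤ c := by
    intro z hz c h
    rw [hnorm z hz, mul_comm (Real.exp (c * R))] at h
    have h1 := Real.exp_le_exp.1 (le_of_mul_le_mul_left h hf0)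
    rw [Complex.div_ofReal_re, div_le_iff₀ hR0]
    exact h1
  have hcore := core (G := fun z => g z / (R : ℂ)) (hgd.div_const _)
    (by simp only [hg0, zero_div]) (fun w hw => by
      refine hre w ?_ _ (ha w hw)
      rw [mem_ball_zero_iff]
      have h1 : ‖w‖ ≤ ‖w - 1 / 2‖ + ‖(1 / 2 : ℂ)‖ := by
        have := norm_add_le (w - 1 / 2) (1 / 2)
        rwa [sub_add_cancel] at this
      have h2 : ‖(1 / 2 : ℂ)‖ = 1 / 2 := by norm_num
      rw [h2] at h1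
      norm_num at hw
      linarith) (fun w hw => by
      refine hre w ?_ _ (hb w hw)
      rw [mem_ball_zero_iff]
      linarith)
  generalize hτ : (1 / 65536 : ℝ) = τ at hcore ⊢
  have hτ0 : 0 < τ := by rw [← hτ]; norm_num
  have hτ1 : τ < 1 := by rw [← hτ]; norm_num
  have hτn : ‖(τ : ℂ)‖ = τ := by rw [Complex.norm_real, Real.norm_of_nonneg hτ0.le]
  have m1 : (τ : ℂ) ∈ ball (0 : ℂ) 1 := by rw [mem_ball_zero_iff, hτn]; exact hτ1
  have m2 : -(τ : ℂ) ∈ ball (0 : ℂ) 1 := by rw [mem_ball_zero_iff, norm_neg, hτn]; exact hτ1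
  rw [hnorm _ m1, hnorm _ m2]
  have h1 : (g (-(τ : ℂ)) / (R : ℂ) - g (τ : ℂ) / (R : ℂ)).re < τ / 2 :=
    (le_abs_self _).trans_lt ((Complex.abs_re_le_norm _).trans_lt hcore)
  rw [Complex.sub_re, Complex.div_ofReal_re, Complex.div_ofReal_re, ← sub_div,
    div_lt_iff₀ hR0] at h1
  have h2 : Real.exp (g (-(τ : ℂ))).re < Real.exp (τ * R / 2) * Real.exp (g (τ : ℂ)).re := by
    rw [← Real.exp_add]
    exact Real.exp_lt_exp.2 (by linarith)
  calc ‖f (1 / 2)‖ * Real.exp (g (-(τ : ℂ))).re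
      < ‖f (1 / 2)‖ * (Real.exp (τ * R / 2) * Real.exp (g (τ : ℂ)).re) :=
        mul_lt_mul_of_pos_left h2 hf0
    _ = Real.exp (τ * R / 2) * (‖f (1 / 2)‖ * Real.exp (g (τ : ℂ)).re) := by ring

theorem bor : Pool.Agent.Y766.R14.S_BOR := bor_main

end Pool.Agent.Y970.R14
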